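import Pool.Agent.Lib.MP_73474e_al.Rep

/-!
# The affine permutations
-/

set_option autoImplicit false
set_option linter.unusedSectionVars false

open Matrix

namespace Pool.Agent.Lib.MP_73474e_al

section affine

variable (p s : ℕ) [hp : Fact p.Prime] (q : ℕ)

abbrev G : Type := Equiv.Perm (U p s × ZMod q)

variable {p s q}

/-- affine permutations -/
def Aff (π : G p s q) (g : U p s) : Prop :=
  (∀ a, zt a * g = g * zt a) ∧ ∃ c : U p s → ZMod q, (∀ u, ∑ a : ZMod p, c (zt a * u) = 0) ∧
    ∀ u t, π (u, t) = (g * u, t + c u)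

theorem Aff.one : Aff (1 : G p s q) 1 := ⟨by simp, 0, by simp, by simp⟩

theorem Aff.mul {π π' : G p s q} {g g' : U p s} (h : Aff π g) (h' : Aff π' g') :
    Aff (π * π') (g * g') := by
  obtain ⟨hz, c, hc, hp⟩ := h
  obtain ⟨hz', c', hc', hp'⟩ := h'
  refine ⟨fun a => by rw [← mul_assoc, hz, mul_assoc, hz', mul_assoc],
    fun u => c' u + c (g' * u), ?_, ?_⟩
  · intro u
    beta_reduce
    rw [Finset.sum_add_distrib, hc', zero_add]
    have := hc (g' * u)
    simp only [← mul_assoc] at this ⊢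
    simp only [hz'] at this
    exact this
  · intro u t
    rw [Equiv.Perm.mul_apply, hp', hp, mul_assoc, add_assoc]

theorem Aff.inv {π : G p s q} {g : U p s} (h : Aff π g) : Aff π⁻¹ g⁻¹ := by
  obtain ⟨hz, c, hc, hp⟩ := h
  have hz' : ∀ a, zt a * g⁻¹ = g⁻¹ * zt a := by
    intro a
    rw [eq_inv_mul_iff_mul_eq, ← mul_assoc, ← hz]; simp
  refine ⟨hz', fun u => - c (g⁻¹ * u), ?_, ?_⟩
  · intro u
    beta_reduce
    rw [Finset.sum_neg_distrib, neg_eq_zero]
    have := hc (g⁻¹ * u)
    simp only [← mul_assoc] at this ⊢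
    simp only [hz'] at this
    exact this
  · intro u t
    rw [Equiv.Perm.inv_eq_iff_eq, hp]
    simp

theorem Aff.pow {π : G p s q} {g : U p s} (h : Aff π g) (k : ℕ) : Aff (π ^ k) (g ^ k) := by
  induction k with
  | zero => simpa using Aff.one
  | succ k ih => rw [pow_succ, pow_succ]; exact ih.mul h

theorem sum_zmod {M : Type*} [AddCommMonoid M] (f : ZMod p → M) :
    ∑ j ∈ Finset.range p, f (j : ZMod p) = ∑ a : ZMod p, f a := by
  refine Finset.sum_nbij' (fun j => (j : ZMod p)) (fun a => a.val) ?_ ?_ ?_ ?_ ?_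
  · intro j _; exact Finset.mem_univ _
  · intro a _; exact Finset.mem_range.mpr (ZMod.val_lt a)
  · intro j hj; exact ZMod.val_cast_of_lt (Finset.mem_range.mp hj)
  · intro a _; exact ZMod.natCast_zmod_val a
  · intro j _; rfl

theorem Aff.pow_zt {π : G p s q} {r : ZMod p} (hr : r ≠ 0) (h : Aff π (zt r)) : π ^ p = 1 := by
  obtain ⟨hz, c, hc, hπ⟩ := h
  have key : ∀ (k : ℕ) (u : U p s) (t : ZMod q), (π ^ k) (u, t) =
      (zt ((k : ZMod p) * r) * u, t + ∑ j ∈ Finset.range k, c (zt ((j : ZMod p) * r) * u)) := by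
    intro k u t
    induction k with
    | zero => simp [zt_zero]
    | succ k ih =>
      rw [pow_succ', Equiv.Perm.mul_apply, ih, hπ, ← mul_assoc, ← zt_add, Finset.sum_range_succ,
        add_assoc]
      congr 2
      push_cast
      rw [add_comm r]
      congr 1
      ring
  ext1 ⟨u, t⟩
  rw [key, CharP.cast_eq_zero, zero_mul, zt_zero, one_mul, sum_zmod (fun a => c (zt (a * r) * u))]
  have : ∑ a : ZMod p, c (zt (a * r) * u) = ∑ a : ZMod p, c (zt a * u) :=
    Fintype.sum_equiv (Equiv.mulRight₀ r hr) _ _ (fun a => rfl)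
  rw [this, hc, add_zero]
  rfl

variable (q) in
open Classical in
/-- the indicator of `v` -/
noncomputable def dl (v u : U p s) : ZMod q := if u = v then 1 else 0

theorem dl_self (v : U p s) : dl q v v = 1 := by unfold dl; exact if_pos rfl

theorem dl_ne {v u : U p s} (h : u ≠ v) : dl q v u = 0 := by unfold dl; exact if_neg h

theorem dl_congr {v u v' u' : U p s} (h : u = v ↔ u' = v') : dl q v u = dl q v' u' := by
  by_cases h1 : u = v
  · rw [h1, h.mp h1, dl_self, dl_self]
  · rw [dl_ne h1, dl_ne (fun h' => h1 (h.mpr h'))]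

variable (q) in
noncomputable def phi (u : U p s) : ZMod q := dl q 1 u - dl q (zt 1) u

theorem phi_sum (u : U p s) : ∑ a : ZMod p, phi q (zt a * u) = 0 := by
  unfold phi
  rw [Finset.sum_sub_distrib, sub_eq_zero]
  refine Fintype.sum_equiv (Equiv.addRight (1 : ZMod p)) _ _ (fun a => ?_)
  refine dl_congr ?_
  have h2 : (zt ((Equiv.addRight (1 : ZMod p)) a) : U p s) = zt 1 * zt a := by
    rw [← zt_add]; congr 1; exact add_comm _ _
  rw [h2, mul_assoc]
  exact (mul_eq_left).symm

theorem phi_other (u : U p s) (h : ∀ a, u ≠ zt a) : phi q u = 0 := by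
  unfold phi
  rw [dl_ne, dl_ne, sub_zero]
  · exact h 1
  · intro h'; exact h 0 (by rw [h', zt_zero])

theorem phi_zero : phi q (zt 0 : U p s) = 1 := by
  unfold phi
  rw [zt_zero, dl_self, dl_ne, sub_zero]
  intro h
  have := zt_inj (zt_zero.trans h)
  exact zero_ne_one this

theorem phi_ne {a : ZMod p} (ha : a ≠ 0) :
    phi q (zt a : U p s) = 0 ∨ phi q (zt a : U p s) = -1 := by
  unfold phi
  rw [dl_ne (fun h => ha (zt_inj (h.trans zt_zero.symm)))]
  by_cases h : (zt a : U p s) = zt 1
  · right; rw [h, dl_self, zero_sub]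
  · left; rw [dl_ne h, sub_zero]

/-- the basic affine permutations -/
noncomputable def ap (g : U p s) (c : U p s → ZMod q) : G p s q where
  toFun x := (g * x.1, x.2 + c x.1)
  invFun x := (g⁻¹ * x.1, x.2 - c (g⁻¹ * x.1))
  left_inv x := by simp
  right_inv x := by simp

theorem ap_apply (g : U p s) (c : U p s → ZMod q) (u : U p s) (t : ZMod q) :
    ap g c (u, t) = (g * u, t + c u) := rfl

variable {n : ℕ} (hn : n ≤ p ^ s) (i0 i1 : Fin n) (h01 : i0 ≠ i1)

variable (q) in
noncomputable def fq : FreeGroup (Fin n) →* G p s q :=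
  FreeGroup.lift (fun i => ap (rho hn (FreeGroup.of i)) (if i = i0 then phi q else 0))

theorem fq_of (i : Fin n) : fq q hn i0 (FreeGroup.of i) =
    ap (rho hn (FreeGroup.of i)) (if i = i0 then phi q else 0) := by
  simp [fq]

theorem fq_aff (x : FreeGroup (Fin n)) : Aff (fq q hn i0 x) (rho hn x) := by
  have gen : ∀ i, Aff (fq q hn i0 (FreeGroup.of i)) (rho hn (FreeGroup.of i)) := by
    intro i
    refine ⟨fun a => (rho_T hn _).zt_comm a, (if i = i0 then phi q else 0), ?_, ?_⟩
    · intro u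
      by_cases hi : i = i0
      · rw [if_pos hi]; exact phi_sum u
      · simp [hi]
    · intro u t
      rw [fq_of, ap_apply]
  induction x using FreeGroup.induction_on with
  | C1 => simpa using Aff.one
  | of i => exact gen i
  | inv_of i ih => rw [map_inv, map_inv]; exact (gen i).inv
  | mul x y hx hy => rw [map_mul, map_mul]; exact hx.mul hy

theorem fq_prim (i : Fin n) (α : MulAut (FreeGroup (Fin n))) :
    fq q hn i0 (α (FreeGroup.of i)) ^ (p ^ (s + 1)) = 1 := by
  have h := (fq_aff (q := q) hn i0 (α (FreeGroup.of i))).pow (p ^ s)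
  obtain ⟨r, hr, hr'⟩ := rho_pow (p := p) (s := s) hn i α
  rw [hr'] at h
  have := h.pow_zt hr
  rwa [← pow_mul, ← pow_succ] at this

/-! ### The word `w = [x0^K, x1]` -/

theorem rho_zero_pow (j : ℕ) (hj0 : 0 < j) (hj : j < p ^ s) (a : ZMod p) :
    (rho hn (FreeGroup.of i0) : U p s) ^ j ≠ zt a := by
  intro h
  obtain ⟨r, hr, hr'⟩ := rho_pow (p := p) (s := s) hn i0 1
  rw [MulAut.one_apply] at hr'
  have ho : orderOf (rho hn (FreeGroup.of i0) : U p s) = p ^ (s + 1) := by
    refine orderOf_eq_prime_pow ?_ ?_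
    · rw [hr']
      intro h1
      exact hr (zt_inj (h1.trans zt_zero.symm))
    · exact (rho_T hn _).units_pow'
  have h2 : (rho hn (FreeGroup.of i0) : U p s) ^ (j * p) = 1 := by
    rw [pow_mul, h, zt_pow, CharP.cast_eq_zero, zero_mul, zt_zero]
  have h3 := orderOf_dvd_of_pow_eq_one h2
  rw [ho, pow_succ] at h3
  have h4 := Nat.dvd_of_mul_dvd_mul_right hp.out.pos h3
  exact absurd (Nat.le_of_dvd hj0 h4) (not_le.mpr hj)

include h01 in
theorem rho_indep (hs : 0 < s) (j : ℕ) (a : ZMod p) :
    (rho hn (FreeGroup.of i0) : U p s) ^ j ≠ zt a * rho hn (FreeGroup.of i1) := by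
  intro h
  have t0 : T (((rho hn (FreeGroup.of i0) : U p s) ^ j : U p s) : Mt p s)
      (j • bs p s (Fin.castLE hn i0)) := by
    rw [Units.val_pow_eq_pow_val]
    have := rho_T (p := p) (s := s) hn (FreeGroup.of i0)
    have e : Multiplicative.toAdd (beta (p := p) (s := s) hn (FreeGroup.of i0)) =
        bs p s (Fin.castLE hn i0) := by simp [beta]
    rw [e] at this
    exact this.pow j
  have t1 : T ((zt a * rho hn (FreeGroup.of i1) : U p s) : Mt p s)
      (0 + bs p s (Fin.castLE hn i1)) := by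
    have := rho_T (p := p) (s := s) hn (FreeGroup.of i1)
    have e : Multiplicative.toAdd (beta (p := p) (s := s) hn (FreeGroup.of i1)) =
        bs p s (Fin.castLE hn i1) := by simp [beta]
    rw [e] at this
    rw [Units.val_mul]
    exact (zt_T a hs).mul this
  rw [h] at t0
  have e := t0.unique hs t1
  rw [zero_add] at e
  have e2 := congrArg (fun x => (bs p s).repr x (Fin.castLE hn i1)) e
  simp only [map_nsmul, Finsupp.smul_apply, Module.Basis.repr_self] at e2
  rw [Finsupp.single_eq_same, Finsupp.single_eq_of_ne, smul_zero] at e2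
  · exact zero_ne_one e2
  · intro h'
    exact h01 (Fin.castLE_injective hn h').symm

theorem fq_zero_pow (k : ℕ) (u : U p s) (t : ZMod q) :
    (fq q hn i0 (FreeGroup.of i0) ^ k) (u, t) = (rho hn (FreeGroup.of i0) ^ k * u,
      t + ∑ j ∈ Finset.range k, phi q (rho hn (FreeGroup.of i0) ^ j * u)) := by
  induction k with
  | zero => simp
  | succ k ih =>
    rw [pow_succ', Equiv.Perm.mul_apply, ih, fq_of, if_pos rfl, ap_apply, ← mul_assoc, ← pow_succ',
      Finset.sum_range_succ, add_assoc]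

theorem fq_one (h01 : i0 ≠ i1) (u : U p s) (t : ZMod q) :
    (fq q hn i0 (FreeGroup.of i1)) (u, t) = (rho hn (FreeGroup.of i1) * u, t) := by
  rw [fq_of, if_neg h01.symm, ap_apply, Pi.zero_apply, add_zero]

end affine

end Pool.Agent.Lib.MP_73474e_al
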