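import Mathlib

/-!
# Unitriangular matrices over `GF(p^K)`, `K = p^s`, with Frobenius-twisted superdiagonal
-/

set_option autoImplicit false

open Matrix

namespace Pool.Agent.Lib.MP_73474e_al

section nil

variable {R : Type*} [CommRing R] {K : ℕ}

theorem pow_low (N : Matrix (Fin (K + 1)) (Fin (K + 1)) R) (hN : ∀ i j, j ≤ i → N i j = 0) (k : ℕ) :
    ∀ i j : Fin (K + 1), (j : ℕ) < i + k → (N ^ k) i j = 0 := by
  induction k with
  | zero =>
    intro i j h
    rw [pow_zero, Matrix.one_apply_ne]
    rintro rfl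
    omega
  | succ k ih =>
    intro i j h
    rw [pow_succ', Matrix.mul_apply]
    refine Finset.sum_eq_zero (fun l _ => ?_)
    by_cases hl : l ≤ i
    · rw [hN i l hl, zero_mul]
    · rw [ih l j (by rw [not_le, Fin.lt_def] at hl; omega), mul_zero]

theorem pow_sup (N : Matrix (Fin (K + 1)) (Fin (K + 1)) R) (hN : ∀ i j, j ≤ i → N i j = 0)
    (a : ℕ → R) (ha : ∀ i j : Fin (K + 1), (j : ℕ) = i + 1 → N i j = a i) (k : ℕ) :
    ∀ i j : Fin (K + 1), (j : ℕ) = i + k → (N ^ k) i j = ∏ l ∈ Finset.range k, a (i + l) := by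
  induction k with
  | zero =>
    intro i j h
    have : j = i := Fin.ext (by omega)
    subst this
    simp
  | succ k ih =>
    intro i j h
    have hi : (i : ℕ) + 1 < K + 1 := by omega
    rw [pow_succ', Matrix.mul_apply, Finset.sum_eq_single (⟨i + 1, hi⟩ : Fin (K + 1))]
    · rw [ha i ⟨i + 1, hi⟩ rfl, ih ⟨i + 1, hi⟩ j (by simp only; omega), Finset.prod_range_succ']
      rw [mul_comm]
      simp only [add_zero]
      congr 1
      refine Finset.prod_congr rfl (fun l _ => ?_)
      congr 1; omega
    · intro l _ hl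
      by_cases hli : l ≤ i
      · rw [hN i l hli, zero_mul]
      · rw [not_le, Fin.lt_def] at hli
        have : (l : ℕ) ≠ i + 1 := fun h => hl (Fin.ext h)
        rw [pow_low N hN k l j (by omega), mul_zero]
    · intro h; exact absurd (Finset.mem_univ _) h

theorem pow_full (N : Matrix (Fin (K + 1)) (Fin (K + 1)) R) (hN : ∀ i j, j ≤ i → N i j = 0)
    (a : ℕ → R) (ha : ∀ i j : Fin (K + 1), (j : ℕ) = i + 1 → N i j = a i) :
    N ^ K = Matrix.single 0 (Fin.last K) (∏ l ∈ Finset.range K, a l) := by
  ext i j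
  by_cases h : i = 0 ∧ j = Fin.last K
  · obtain ⟨rfl, rfl⟩ := h
    rw [pow_sup N hN a ha K 0 (Fin.last K) (by simp)]
    simp
  · rw [pow_low N hN K i j, Matrix.single_apply, if_neg]
    · rintro ⟨rfl, rfl⟩; exact h ⟨rfl, rfl⟩
    · by_contra hc
      apply h
      constructor
      · apply Fin.ext; have := j.2; rw [Fin.val_zero]; omega
      · apply Fin.ext; have := j.2; rw [Fin.val_last]; omega

end nil

section mat

variable (p s : ℕ) [hp : Fact p.Prime]

/-- the field with `p^(p^s)` elements -/
abbrev L : Type := GaloisField p (p ^ s)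

/-- matrices of size `p^s + 1` -/
abbrev Mt : Type := Matrix (Fin (p ^ s + 1)) (Fin (p ^ s + 1)) (L p s)

variable {p s}

/-- unitriangular with superdiagonal `v^(p^i)` -/
structure T (M : Mt p s) (v : L p s) : Prop where
  low : ∀ i j, j < i → M i j = 0
  diag : ∀ i, M i i = 1
  sup : ∀ i j : Fin (p ^ s + 1), (j : ℕ) = i + 1 → M i j = v ^ (p ^ (i : ℕ))

theorem T.one : T (1 : Mt p s) 0 := by
  refine ⟨fun i j h => Matrix.one_apply_ne (ne_of_gt h), fun i => Matrix.one_apply_eq i, ?_⟩
  intro i j h
  rw [Matrix.one_apply_ne (by rintro rfl; omega), zero_pow (pow_pos hp.out.pos _).ne']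

theorem T.mul {M M' : Mt p s} {v v' : L p s} (h : T M v) (h' : T M' v') :
    T (M * M') (v + v') := by
  refine ⟨?_, ?_, ?_⟩
  · intro i j hij
    rw [Matrix.mul_apply]
    refine Finset.sum_eq_zero (fun l _ => ?_)
    by_cases hl : l < i
    · rw [h.low i l hl, zero_mul]
    · rw [h'.low l j (lt_of_lt_of_le hij (not_lt.mp hl)), mul_zero]
  · intro i
    rw [Matrix.mul_apply, Finset.sum_eq_single i, h.diag, h'.diag, mul_one]
    · intro l _ hl
      rcases lt_or_gt_of_ne hl with hl | hl
      · rw [h.low i l hl, zero_mul]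
      · rw [h'.low l i hl, mul_zero]
    · intro h; exact absurd (Finset.mem_univ _) h
  · intro i j hij
    have hne : i ≠ j := by rintro rfl; omega
    rw [Matrix.mul_apply, Finset.sum_eq_add i j hne, h.diag, h'.diag, h.sup i j hij,
      h'.sup i j hij, add_pow_char_pow]
    · ring
    · rintro l _ ⟨hl1, hl2⟩
      by_cases hl : l < i
      · rw [h.low i l hl, zero_mul]
      · have : j < l := by
          rw [Fin.lt_def] at hl ⊢
          have h1 : (l : ℕ) ≠ i := fun e => hl1 (Fin.ext e)
          have h2 : (l : ℕ) ≠ j := fun e => hl2 (Fin.ext e)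
          omega
        rw [h'.low l j this, mul_zero]
    · intro h; exact absurd (Finset.mem_univ _) h
    · intro h; exact absurd (Finset.mem_univ _) h

theorem T.pow {M : Mt p s} {v : L p s} (h : T M v) (k : ℕ) : T (M ^ k) (k • v) := by
  induction k with
  | zero => simpa using T.one
  | succ k ih =>
    rw [pow_succ, succ_nsmul]
    exact ih.mul h

/-- `1 + a E` for the corner matrix unit `E` -/
noncomputable def zm (a : L p s) : Mt p s := 1 + Matrix.single 0 (Fin.last (p ^ s)) a

theorem zero_ne_last : (0 : Fin (p ^ s + 1)) ≠ Fin.last (p ^ s) := by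
  intro h
  have := congrArg Fin.val h
  simp only [Fin.val_zero, Fin.val_last] at this
  exact (pow_pos hp.out.pos s).ne this

theorem zm_mul (a b : L p s) : zm a * zm b = zm (a + b) := by
  have h1 : (Matrix.single 0 (Fin.last (p ^ s)) a : Mt p s) *
      Matrix.single 0 (Fin.last (p ^ s)) b = 0 :=
    Matrix.single_mul_single_of_ne _ _ _ _ zero_ne_last.symm _
  rw [zm, zm, zm, add_mul, mul_add, mul_add, h1, one_mul, mul_one, one_mul, add_zero,
    Matrix.single_add, add_comm (Matrix.single 0 (Fin.last (p ^ s)) a), add_assoc]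

theorem zm_zero : zm (0 : L p s) = 1 := by simp [zm]

theorem zm_inj {a b : L p s} (h : zm a = zm b) : a = b := by
  have := congrFun (congrFun h 0) (Fin.last (p ^ s))
  simpa [zm] using this

/-- the `p^s`-th power -/
theorem T.pow_K {M : Mt p s} {v : L p s} (h : T M v) :
    M ^ (p ^ s) = zm (algebraMap (ZMod p) (L p s) (Algebra.norm (ZMod p) v)) := by
  have hM : M = 1 + (M - 1) := by abel
  have hN : ∀ i j, j ≤ i → (M - 1) i j = 0 := by
    intro i j hij
    rw [Matrix.sub_apply]
    rcases lt_or_eq_of_le hij with hij | rfl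
    · rw [h.low i j hij, Matrix.one_apply_ne (ne_of_gt hij), sub_zero]
    · rw [h.diag, Matrix.one_apply_eq, sub_self]
  have ha : ∀ i j : Fin (p ^ s + 1), (j : ℕ) = i + 1 → (M - 1) i j = v ^ (p ^ (i : ℕ)) := by
    intro i j hij
    rw [Matrix.sub_apply, h.sup i j hij, Matrix.one_apply_ne (by rintro rfl; omega), sub_zero]
  have hfin : Module.finrank (ZMod p) (L p s) = p ^ s :=
    GaloisField.finrank p (pow_pos hp.out.pos s).ne'
  rw [hM, add_pow_char_pow_of_commute p s (Commute.one_left _), one_pow,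
    pow_full (M - 1) hN (fun i => v ^ (p ^ i)) ha, zm, FiniteField.algebraMap_norm_eq_prod_pow,
    hfin, Nat.card_zmod]

theorem T.comm {M : Mt p s} {v : L p s} (h : T M v) (a : L p s) : zm a * M = M * zm a := by
  rw [zm, add_mul, mul_add, one_mul, mul_one]
  congr 1
  ext i j
  by_cases hi : i = 0
  · subst hi
    rw [Matrix.single_mul_apply_same]
    by_cases hj : j = Fin.last (p ^ s)
    · subst hj
      rw [Matrix.mul_single_apply_same, h.diag, h.diag, mul_one, one_mul]
    · rw [Matrix.mul_single_apply_of_ne _ _ _ _ _ hj, h.low _ _ (Fin.lt_last_iff_ne_last.mpr hj),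
        mul_zero]
  · rw [Matrix.single_mul_apply_of_ne _ _ _ _ _ hi]
    by_cases hj : j = Fin.last (p ^ s)
    · subst hj
      rw [Matrix.mul_single_apply_same, h.low _ _ (Fin.pos_of_ne_zero hi), zero_mul]
    · rw [Matrix.mul_single_apply_of_ne _ _ _ _ _ hj]

end mat

end Pool.Agent.Lib.MP_73474e_al
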