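import Pool.Agent.Lib.MP_73474e_al.Mat

/-!
# The finite group, the representation of the free group, and the affine permutations
-/

set_option autoImplicit false
set_option linter.unusedSectionVars false

open Matrix

namespace Pool.Agent.Lib.MP_73474e_al

section rep

variable (p s : ℕ) [hp : Fact p.Prime]

abbrev U : Type := (Mt p s)ˣ

variable {p s}

/-- the central units -/
noncomputable def zt (a : ZMod p) : U p s where
  val := zm (algebraMap (ZMod p) (L p s) a)
  inv := zm (algebraMap (ZMod p) (L p s) (-a))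
  val_inv := by rw [zm_mul, ← map_add, add_neg_cancel, map_zero, zm_zero]
  inv_val := by rw [zm_mul, ← map_add, neg_add_cancel, map_zero, zm_zero]

theorem zt_add (a b : ZMod p) : (zt (a + b) : U p s) = zt a * zt b := by
  apply Units.ext
  rw [Units.val_mul]
  simp only [zt]
  rw [zm_mul, map_add]

theorem zt_zero : (zt 0 : U p s) = 1 := by
  apply Units.ext
  simp only [zt, map_zero, zm_zero, Units.val_one]

theorem zt_inj {a b : ZMod p} (h : (zt a : U p s) = zt b) : a = b :=
  (algebraMap (ZMod p) (L p s)).injective (zm_inj (congrArg Units.val h))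

theorem zt_pow (a : ZMod p) (k : ℕ) : (zt a : U p s) ^ k = zt ((k : ZMod p) * a) := by
  induction k with
  | zero => rw [pow_zero, Nat.cast_zero, zero_mul, zt_zero]
  | succ k ih => rw [pow_succ, ih, ← zt_add]; congr 1; push_cast; ring

theorem zt_T (a : ZMod p) (hs : 0 < s) : T ((zt a : U p s) : Mt p s) 0 := by
  have hK : 1 < p ^ s := Nat.one_lt_pow hs.ne' hp.out.one_lt
  refine ⟨?_, ?_, ?_⟩
  · intro i j hij
    simp only [zt, zm]
    rw [Matrix.add_apply, Matrix.one_apply_ne (ne_of_gt hij), Matrix.single_apply, if_neg, add_zero]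
    rintro ⟨rfl, rfl⟩
    exact absurd (Fin.le_last _) (not_le.mpr hij)
  · intro i
    simp only [zt, zm]
    rw [Matrix.add_apply, Matrix.one_apply_eq, Matrix.single_apply, if_neg, add_zero]
    rintro ⟨rfl, h⟩
    exact zero_ne_last h.symm
  · intro i j hij
    simp only [zt, zm]
    rw [Matrix.add_apply, Matrix.one_apply_ne (by rintro rfl; omega), Matrix.single_apply, if_neg,
      add_zero, zero_pow (pow_pos hp.out.pos _).ne']
    rintro ⟨rfl, rfl⟩
    rw [Fin.val_zero, Fin.val_last] at hij
    omega

theorem T.unique {M : Mt p s} {v v' : L p s} (hs : 0 < s) (h : T M v) (h' : T M v') : v = v' := by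
  have hK : 1 < p ^ s := Nat.one_lt_pow hs.ne' hp.out.one_lt
  have e := h.sup (0 : Fin (p ^ s + 1)) ⟨1, by omega⟩ (by simp)
  have e' := h'.sup (0 : Fin (p ^ s + 1)) ⟨1, by omega⟩ (by simp)
  rw [Fin.val_zero, pow_zero, pow_one] at e e'
  rw [← e, ← e']

theorem T.units_pow {u : U p s} {v : L p s} (h : T (u : Mt p s) v) :
    u ^ (p ^ s) = zt (Algebra.norm (ZMod p) v) := by
  apply Units.ext
  rw [Units.val_pow_eq_pow_val, h.pow_K]
  rfl

theorem T.units_pow' {u : U p s} {v : L p s} (h : T (u : Mt p s) v) : u ^ (p ^ (s + 1)) = 1 := by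
  rw [pow_succ, pow_mul, h.units_pow, zt_pow, CharP.cast_eq_zero, zero_mul, zt_zero]

theorem T.inv {u : U p s} {v : L p s} (h : T (u : Mt p s) v) : T ((u⁻¹ : U p s) : Mt p s) (-v) := by
  have h1 : 0 < p ^ (s + 1) := pow_pos hp.out.pos _
  have h2 : u⁻¹ = u ^ (p ^ (s + 1) - 1) := by
    rw [inv_eq_iff_mul_eq_one, ← pow_succ', Nat.sub_add_cancel h1, h.units_pow']
  have h3 : (p ^ (s + 1) - 1) • v = -v := by
    have : (p ^ (s + 1)) • v = 0 := by
      rw [nsmul_eq_mul]
      push_cast
      rw [CharP.cast_eq_zero, zero_pow (by omega), zero_mul]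
    rw [← Nat.sub_add_cancel h1, add_nsmul, one_nsmul] at this
    exact eq_neg_of_add_eq_zero_left this
  rw [h2, ← h3, Units.val_pow_eq_pow_val]
  exact h.pow _

theorem T.zt_comm {u : U p s} {v : L p s} (h : T (u : Mt p s) v) (a : ZMod p) :
    zt a * u = u * zt a := Units.ext (h.comm _)

/-- the generator matrices -/
noncomputable def gm (v : L p s) : Mt p s :=
  fun i j => if i = j then 1 else if (j : ℕ) = i + 1 then v ^ (p ^ (i : ℕ)) else 0

theorem gm_T (v : L p s) : T (gm v) v := by
  refine ⟨?_, ?_, ?_⟩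
  · intro i j hij
    rw [Fin.lt_def] at hij
    rw [gm, if_neg (by rintro rfl; omega), if_neg (by omega)]
  · intro i
    rw [gm, if_pos rfl]
  · intro i j hij
    rw [gm, if_neg (by rintro rfl; omega), if_pos hij]

theorem gm_unit (v : L p s) : IsUnit (gm v) := by
  have h : IsUnit (gm v ^ (p ^ s)) := by
    rw [(gm_T v).pow_K]
    exact (zt (Algebra.norm (ZMod p) v) : U p s).isUnit
  exact (isUnit_pow_iff (pow_pos hp.out.pos s).ne').mp h

noncomputable def gu (v : L p s) : U p s := (gm_unit v).unit

theorem gu_T (v : L p s) : T ((gu v : U p s) : Mt p s) v := gm_T v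

variable (p s) in
/-- a basis of the field -/
noncomputable def bs : Module.Basis (Fin (p ^ s)) (ZMod p) (L p s) :=
  Module.finBasisOfFinrankEq (ZMod p) (L p s) (GaloisField.finrank p (pow_pos hp.out.pos s).ne')

variable {n : ℕ} (hn : n ≤ p ^ s)

/-- the representation -/
noncomputable def rho : FreeGroup (Fin n) →* U p s :=
  FreeGroup.lift (fun i => gu (bs p s (Fin.castLE hn i)))

/-- the abelianisation mod `p`, with values in the field -/
noncomputable def beta : FreeGroup (Fin n) →* Multiplicative (L p s) :=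
  FreeGroup.lift (fun i => Multiplicative.ofAdd (bs p s (Fin.castLE hn i)))

theorem rho_T (x : FreeGroup (Fin n)) :
    T ((rho hn x : U p s) : Mt p s) (Multiplicative.toAdd (beta hn x)) := by
  induction x using FreeGroup.induction_on with
  | C1 => simpa using T.one
  | of i => simpa [rho, beta] using gu_T (bs p s (Fin.castLE hn i))
  | inv_of i ih =>
    rw [map_inv, map_inv]
    exact ih.inv
  | mul x y hx hy =>
    simpa using hx.mul hy

theorem beta_ne (i : Fin n) (α : MulAut (FreeGroup (Fin n))) :
    Multiplicative.toAdd (beta (p := p) (s := s) hn (α (FreeGroup.of i))) ≠ 0 := by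
  intro h0
  let chi : FreeGroup (Fin n) →* Multiplicative (ZMod p) :=
    FreeGroup.lift (fun j => Multiplicative.ofAdd (if j = i then (1 : ZMod p) else 0))
  let psi : FreeGroup (Fin n) →* Multiplicative (ZMod p) :=
    chi.comp (α⁻¹ : MulAut (FreeGroup (Fin n))).toMonoidHom
  let l : L p s →ₗ[ZMod p] ZMod p :=
    (bs p s).constr (ZMod p) (fun j => if h : (j : ℕ) < n then
      Multiplicative.toAdd (psi (FreeGroup.of ⟨j, h⟩)) else 0)
  have hl : psi = (AddMonoidHom.toMultiplicative l.toAddMonoidHom).comp (beta hn) := by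
    have hlb : ∀ j : Fin n, l (bs p s (Fin.castLE hn j)) =
        Multiplicative.toAdd (psi (FreeGroup.of j)) := by
      intro j
      simp only [l]
      rw [Module.Basis.constr_basis]
      exact dif_pos j.2
    apply FreeGroup.ext_hom
    intro j
    apply Multiplicative.toAdd.injective
    rw [← hlb j]
    simp [beta]
  have h1 : psi (α (FreeGroup.of i)) = Multiplicative.ofAdd 1 := by
    simp [psi, chi]
  rw [hl] at h1
  simp only [MonoidHom.comp_apply] at h1
  have h2 : beta (p := p) (s := s) hn (α (FreeGroup.of i)) = 1 := by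
    apply Multiplicative.toAdd.injective
    simpa using h0
  rw [h2, map_one] at h1
  have h3 : (0 : ZMod p) = 1 := congrArg Multiplicative.toAdd h1
  exact zero_ne_one h3

theorem rho_pow (i : Fin n) (α : MulAut (FreeGroup (Fin n))) :
    ∃ r : ZMod p, r ≠ 0 ∧ (rho hn (α (FreeGroup.of i)) : U p s) ^ (p ^ s) = zt r := by
  refine ⟨_, ?_, (rho_T hn _).units_pow⟩
  rw [Ne, Algebra.norm_eq_zero_iff]
  exact beta_ne hn i α

end rep

end Pool.Agent.Lib.MP_73474e_al
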